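import Mathlib

/-! B-splines, interpolatory quadrature weights and the equioscillating spline. -/

namespace Pool.Agent.MP_836f85_an

open scoped BigOperators

/-- The B-spline of degree `p` and index `i` (indices start at 0) on the knot sequence `ξ`,
by the Cox-de Boor recursion (a quotient with denominator 0 is 0). Its knots are
`ξ i, ..., ξ (i+p+1)`. -/
noncomputable def bspline (ξ : ℕ → ℝ) : ℕ → ℕ → ℝ → ℝ
  | 0, i, y => if ξ i ≤ y ∧ y < ξ (i + 1) then 1 else 0
  | p + 1, i, y =>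
      (y - ξ i) / (ξ (i + p + 1) - ξ i) * bspline ξ p i y +
        (ξ (i + p + 2) - y) / (ξ (i + p + 2) - ξ (i + 1)) * bspline ξ p (i + 1) y

/-- The spline with B-spline coefficients `a`. -/
noncomputable def spline (ξ : ℕ → ℝ) (p : ℕ) {n : ℕ} (a : Fin n → ℝ) (y : ℝ) : ℝ :=
  ∑ i : Fin n, a i * bspline ξ p i y

/-- `w` integrates every spline exactly against the density `ρ` on `[ξ p, ξ n]`. -/
def IsQuadWeights (ξ : ℕ → ℝ) (p : ℕ) (ρ : ℝ → ℝ) {n : ℕ} (x w : Fin n → ℝ) : Prop :=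
  ∀ a : Fin n → ℝ, ∑ k : Fin n, w k * spline ξ p a (x k) =
    ∫ y in Set.Icc (ξ p) (ξ n), ρ y * spline ξ p a y

/-- The spline with coefficients `a` takes the values `+1, -1, +1, ...` at the points `x`. -/
def IsEquioscillating (ξ : ℕ → ℝ) (p : ℕ) {n : ℕ} (x a : Fin n → ℝ) : Prop :=
  ∀ i : Fin n, spline ξ p a (x i) = (-1) ^ (i : ℕ)

end Pool.Agent.MP_836f85_an
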