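import Pool.Agent.MP_836f85_an.Defs

namespace Pool.Agent.MP_836f85_an

open scoped BigOperators
open Set MeasureTheory

noncomputable def kn : ℕ → ℝ := fun i => (i : ℝ)

noncomputable def pts : Fin 4 → ℝ := ![2, 9/4, 15/4, 4]

lemma b0 (i : ℕ) (y : ℝ) : bspline kn 0 i y = if (i : ℝ) ≤ y ∧ y < (i : ℝ) + 1 then 1 else 0 := by
  simp [bspline, kn]

lemma bsucc (p i : ℕ) (y : ℝ) : bspline kn (p + 1) i y =
    (y - kn i) / (kn (i + p + 1) - kn i) * bspline kn p i y +
        (kn (i + p + 2) - y) / (kn (i + p + 2) - kn (i + 1)) * bspline kn p (i + 1) y := by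
  rw [bspline]

lemma b2 (i : ℕ) (y : ℝ) : bspline kn 2 i y =
    (y - i) / 2 * ((y - i) * bspline kn 0 i y + (i + 2 - y) * bspline kn 0 (i + 1) y) +
    (i + 3 - y) / 2 * ((y - (i + 1)) * bspline kn 0 (i + 1) y +
      (i + 3 - y) * bspline kn 0 (i + 2) y) := by
  have hb1 : ∀ j : ℕ, bspline kn 1 j y =
      (y - j) * bspline kn 0 j y + (j + 2 - y) * bspline kn 0 (j + 1) y := by
    intro j
    rw [show bspline kn 1 j y = bspline kn (0 + 1) j y from rfl, bsucc 0]
    have h2 : kn (j + 0 + 1) - kn j = 1 := by simp [kn]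
    have h3 : kn (j + 0 + 2) - kn (j + 1) = 1 := by simp [kn]; norm_num
    have h4 : kn (j + 0 + 2) = j + 2 := by simp [kn]
    have h5 : kn j = j := rfl
    rw [h2, h3, h4, h5]
    simp
  rw [show bspline kn 2 i y = bspline kn (1 + 1) i y from rfl, bsucc 1, hb1, hb1]
  have h2 : kn (i + 1 + 1) - kn i = 2 := by simp [kn]; ring
  have h3 : kn (i + 1 + 2) - kn (i + 1) = 2 := by simp [kn]
  have h4 : kn (i + 1 + 2) = i + 3 := by simp [kn]; ring
  have h5 : kn i = i := rfl
  rw [h2, h3, h4, h5]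
  push_cast
  ring

lemma spl_left (a : Fin 4 → ℝ) (y : ℝ) (h1 : 2 ≤ y) (h2 : y < 3) :
    spline kn 2 a y = a 0 * ((3 - y) ^ 2 / 2) + a 1 * ((-2 * (y - 2) ^ 2 + 2 * (y - 2) + 1) / 2)
      + a 2 * ((y - 2) ^ 2 / 2) := by
  have e0 : bspline kn 0 0 y = 0 := by rw [b0, if_neg]; push_cast; intro h; linarith [h.2]
  have e1 : bspline kn 0 1 y = 0 := by rw [b0, if_neg]; push_cast; intro h; linarith [h.2]
  have e2 : bspline kn 0 2 y = 1 := by rw [b0, if_pos]; push_cast; constructor <;> linarith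
  have e3 : bspline kn 0 3 y = 0 := by rw [b0, if_neg]; push_cast; intro h; linarith [h.1]
  have e4 : bspline kn 0 4 y = 0 := by rw [b0, if_neg]; push_cast; intro h; linarith [h.1]
  have e5 : bspline kn 0 5 y = 0 := by rw [b0, if_neg]; push_cast; intro h; linarith [h.1]
  simp only [spline, Fin.sum_univ_four, b2]
  simp only [Fin.val_zero, Fin.val_one, Fin.val_two, show ((3 : Fin 4) : ℕ) = 3 from rfl]
  norm_num [e0, e1, e2, e3, e4, e5]
  ring

lemma spl_right (a : Fin 4 → ℝ) (y : ℝ) (h1 : 3 ≤ y) (h2 : y ≤ 4) :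
    spline kn 2 a y = a 1 * ((4 - y) ^ 2 / 2) + a 2 * ((-2 * (y - 3) ^ 2 + 2 * (y - 3) + 1) / 2)
      + a 3 * ((y - 3) ^ 2 / 2) := by
  have e0 : bspline kn 0 0 y = 0 := by rw [b0, if_neg]; push_cast; intro h; linarith [h.2]
  have e1 : bspline kn 0 1 y = 0 := by rw [b0, if_neg]; push_cast; intro h; linarith [h.2]
  have e2 : bspline kn 0 2 y = 0 := by rw [b0, if_neg]; push_cast; intro h; linarith [h.2]
  have e5 : bspline kn 0 5 y = 0 := by rw [b0, if_neg]; push_cast; intro h; linarith [h.1]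
  rcases lt_or_eq_of_le h2 with h | h
  · have e3 : bspline kn 0 3 y = 1 := by rw [b0, if_pos]; push_cast; constructor <;> linarith
    have e4 : bspline kn 0 4 y = 0 := by rw [b0, if_neg]; push_cast; intro h; linarith [h.1]
    simp only [spline, Fin.sum_univ_four, b2]
    simp only [Fin.val_zero, Fin.val_one, Fin.val_two, show ((3 : Fin 4) : ℕ) = 3 from rfl]
    norm_num [e0, e1, e2, e3, e4, e5]
    ring
  · subst h
    have e3 : bspline kn 0 3 4 = 0 := by rw [b0, if_neg]; push_cast; intro h; linarith [h.2]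
    have e4 : bspline kn 0 4 4 = 1 := by rw [b0, if_pos]; push_cast; constructor <;> linarith
    simp only [spline, Fin.sum_univ_four, b2]
    simp only [Fin.val_zero, Fin.val_one, Fin.val_two, show ((3 : Fin 4) : ℕ) = 3 from rfl]
    norm_num [e0, e1, e2, e3, e4, e5]

lemma int_quad (α β γ u v : ℝ) : ∫ y in u..v, (α + β * y + γ * y ^ 2) =
    α * (v - u) + β * (v ^ 2 - u ^ 2) / 2 + γ * (v ^ 3 - u ^ 3) / 3 := by
  have h : ∀ y ∈ uIcc u v, HasDerivAt (fun y : ℝ => α * y + β * y ^ 2 / 2 + γ * y ^ 3 / 3)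
      (α + β * y + γ * y ^ 2) y := by
    intro y _
    have h1 := (hasDerivAt_id y).const_mul α
    have h2 := ((hasDerivAt_pow 2 y).const_mul β).div_const 2
    have h3 := ((hasDerivAt_pow 3 y).const_mul γ).div_const 3
    have h4 := (h1.add h2).add h3
    have e : α + β * y + γ * y ^ 2 =
        α * 1 + β * (((2 : ℕ) : ℝ) * y ^ (2 - 1)) / 2 + γ * (((3 : ℕ) : ℝ) * y ^ (3 - 1)) / 3 := by
      simp; ring
    rw [e]
    exact h4
  rw [intervalIntegral.integral_eq_sub_of_hasDerivAt h (by apply Continuous.intervalIntegrable; fun_prop)]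
  ring

lemma int_spline (a : Fin 4 → ℝ) :
    ∫ y in Icc (kn 2) (kn 4), (1 : ℝ) * spline kn 2 a y =
      a 0 / 6 + 5 * a 1 / 6 + 5 * a 2 / 6 + a 3 / 6 := by
  have k2 : kn 2 = 2 := by simp [kn]
  have k4 : kn 4 = 4 := by simp [kn]
  rw [k2, k4]
  simp only [one_mul]
  have hL : EqOn (spline kn 2 a) (fun y => (9 * a 0 / 2 - 11 * a 1 / 2 + 2 * a 2) +
      (-3 * a 0 + 5 * a 1 - 2 * a 2) * y + (a 0 / 2 - a 1 + a 2 / 2) * y ^ 2) (uIcc 2 3) := by
    intro y hy
    rw [uIcc_of_le (by norm_num)] at hy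
    rcases lt_or_eq_of_le hy.2 with h | h
    · rw [spl_left a y hy.1 h]; ring
    · subst h; rw [spl_right a 3 le_rfl (by norm_num)]; ring
  have hR : EqOn (spline kn 2 a) (fun y => (8 * a 1 - 23 * a 2 / 2 + 9 * a 3 / 2) +
      (-4 * a 1 + 7 * a 2 - 3 * a 3) * y + (a 1 / 2 - a 2 + a 3 / 2) * y ^ 2) (uIcc 3 4) := by
    intro y hy
    rw [uIcc_of_le (by norm_num)] at hy
    rw [spl_right a y hy.1 hy.2]; ring
  have iL : IntervalIntegrable (spline kn 2 a) volume 2 3 := by
    refine ContinuousOn.intervalIntegrable ?_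
    exact ContinuousOn.congr (by fun_prop) hL
  have iR : IntervalIntegrable (spline kn 2 a) volume 3 4 := by
    refine ContinuousOn.intervalIntegrable ?_
    exact ContinuousOn.congr (by fun_prop) hR
  rw [integral_Icc_eq_integral_Ioc, ← intervalIntegral.integral_of_le (by norm_num),
    ← intervalIntegral.integral_add_adjacent_intervals iL iR,
    intervalIntegral.integral_congr hL, intervalIntegral.integral_congr hR, int_quad, int_quad]
  ring

lemma v0 (a : Fin 4 → ℝ) : spline kn 2 a (pts 0) = a 0 / 2 + a 1 / 2 := by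
  have : pts 0 = 2 := rfl
  rw [this, spl_left a 2 le_rfl (by norm_num)]; ring
lemma v1 (a : Fin 4 → ℝ) : spline kn 2 a (pts 1) = 9 * a 0 / 32 + 22 * a 1 / 32 + a 2 / 32 := by
  have : pts 1 = 9 / 4 := rfl
  rw [this, spl_left a _ (by norm_num) (by norm_num)]; ring
lemma v2 (a : Fin 4 → ℝ) : spline kn 2 a (pts 2) = a 1 / 32 + 22 * a 2 / 32 + 9 * a 3 / 32 := by
  have : pts 2 = 15 / 4 := rfl
  rw [this, spl_right a _ (by norm_num) (by norm_num)]; ring
lemma v3 (a : Fin 4 → ℝ) : spline kn 2 a (pts 3) = a 2 / 2 + a 3 / 2 := by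
  have : pts 3 = 4 := rfl
  rw [this, spl_right a _ (by norm_num) (by norm_num)]; ring

noncomputable def wt : Fin 4 → ℝ := ![-11/21, 32/21, 32/21, -11/21]
noncomputable def co : Fin 4 → ℝ := ![37/6, -25/6, 25/6, -37/6]

lemma quad_iff (w : Fin 4 → ℝ) : IsQuadWeights kn 2 (fun _ => 1) pts w ↔ w = wt := by
  unfold IsQuadWeights
  simp only [int_spline, Fin.sum_univ_four, v0, v1, v2, v3]
  constructor
  · intro h
    have h0 := h ![1, 0, 0, 0]
    have h1 := h ![0, 1, 0, 0]
    have h2 := h ![0, 0, 1, 0]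
    have h3 := h ![0, 0, 0, 1]
    simp at h0 h1 h2 h3
    funext i
    fin_cases i <;> simp [wt] <;> linarith
  · rintro rfl a
    simp [wt]
    ring

lemma equi_iff (a : Fin 4 → ℝ) : IsEquioscillating kn 2 pts a ↔ a = co := by
  unfold IsEquioscillating
  constructor
  · intro h
    have h0 := h 0
    have h1 := h 1
    have h2 := h 2
    have h3 := h 3
    rw [v0] at h0
    rw [v1] at h1
    rw [v2] at h2
    rw [v3] at h3
    simp only [Fin.val_zero, Fin.val_one, Fin.val_two, show ((3 : Fin 4) : ℕ) = 3 from rfl] at h0 h1 h2 h3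
    norm_num at h0 h1 h2 h3
    funext i
    fin_cases i <;> simp [co] <;> linarith
  · rintro rfl i
    fin_cases i
    · simp [v0, co]; norm_num
    · simp [v1, co]; norm_num
    · simp [v2, co]; norm_num
    · simp [v3, co]; norm_num

lemma co_lub : IsLUB ((fun y => |spline kn 2 co y|) '' Icc (kn 2) (kn 4)) (625 / 336) := by
  have k2 : kn 2 = 2 := by simp [kn]
  have k4 : kn 4 = 4 := by simp [kn]
  rw [k2, k4]
  apply IsGreatest.isLUB
  constructor
  · refine ⟨3 + 25 / 56, ⟨by norm_num, by norm_num⟩, ?_⟩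
    simp only
    rw [spl_right co _ (by norm_num) (by norm_num)]
    simp [co]
    norm_num
  · rintro _ ⟨y, ⟨h1, h2⟩, rfl⟩
    simp only
    rcases lt_or_ge y 3 with h | h
    · rw [spl_left co y h1 h]
      simp only [co, Matrix.cons_val_zero, Matrix.cons_val_one, Matrix.cons_val]
      rw [abs_le]
      constructor
      · nlinarith [sq_nonneg (y - (3 - 25 / 56))]
      · nlinarith [mul_nonneg (sub_nonneg.2 h1) (sub_nonneg.2 h.le)]
    · rw [spl_right co y h h2]
      simp only [co, Matrix.cons_val_zero, Matrix.cons_val_one, Matrix.cons_val]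
      rw [abs_le]
      constructor
      · nlinarith [mul_nonneg (sub_nonneg.2 h) (sub_nonneg.2 h2)]
      · nlinarith [sq_nonneg (y - (3 + 25 / 56))]

lemma unity (y : ℝ) (hy : y ∈ Icc (kn 2) (kn 4)) : ∑ i : Fin 4, bspline kn 2 i y = 1 := by
  have k2 : kn 2 = 2 := by simp [kn]
  have k4 : kn 4 = 4 := by simp [kn]
  rw [k2, k4] at hy
  have : ∑ i : Fin 4, bspline kn 2 i y = spline kn 2 (fun _ : Fin 4 => (1 : ℝ)) y := by
    simp [spline]
  rw [this]
  rcases lt_or_ge y 3 with h | h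
  · rw [spl_left _ y hy.1 h]; ring
  · rw [spl_right _ y h hy.2]; ring

lemma unisolvent (i : Fin 4) : 0 < bspline kn 2 i (pts i) := by
  have key : ∀ j : Fin 4, ∀ y, bspline kn 2 j y = spline kn 2 (Pi.single j (1 : ℝ) : Fin 4 → ℝ) y := by
    intro j y
    simp [spline, Pi.single_apply]
  rw [key]
  fin_cases i
  · simp [v0]
  · simp [v1]
  · simp [v2]
  · simp [v3]

end Pool.Agent.MP_836f85_an
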